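import Pool.Agent.Helper28.Sus.Goals2

/-!
# Packet SUS-PAR: the bounds of the theorem give admissible parameters
-/

namespace Pool.Agent.Helper5.Sus

open Pool.Agent.Helper28.Sus
open Pool.Agent.Helper65.LinSpace Pool.Agent.Helper78.Mpc Pool.Agent.Helper28.Ram Finset Filter
open Pool.Agent.Helper28.Long (ZL ZL_le le_ZL)
open Pool.Agent.Helper81.Tok3 (gH)

theorem gH_pos (n h : ℕ) : 0 < gH n h := Nat.succ_pos _

theorem lt_gH_sq (n h : ℕ) : n + 1 ≤ gH n h * gH n h * (ll n + h) := by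
  have hp := ll_pos n
  have h1 : n / (ll n + h) < gH n h * gH n h := Nat.lt_succ_sqrt _
  have h2 : n < (n / (ll n + h) + 1) * (ll n + h) := by
    have := Nat.lt_div_mul_add (a := n) (b := ll n + h) (by omega)
    rw [add_mul, one_mul]
    exact this
  have h3 : (n / (ll n + h) + 1) * (ll n + h) ≤ gH n h * gH n h * (ll n + h) :=
    Nat.mul_le_mul_right _ h1
  omega

/-- The cube of `gH` is at most twice the square of `n + 1`. -/
theorem gH_cube (n h : ℕ) : gH n h * gH n h * gH n h ≤ 2 * ((n + 1) * (n + 1)) := by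
  unfold gH
  set m := n / (ll n + h) with hm
  have hmn : m ≤ n := Nat.div_le_self _ _
  have h1 : Nat.sqrt m * Nat.sqrt m ≤ m := Nat.sqrt_le m
  have h2 : Nat.sqrt m ≤ m := Nat.sqrt_le_self m
  set t := Nat.sqrt m with ht
  have h3 : (t + 1) * (t + 1) ≤ 2 * (m + 1) := by
    rcases Nat.lt_or_ge t 1 with h0 | h0
    · have : t = 0 := by omega
      rw [this]; omega
    · have h5 : 2 * t ≤ t * t + 1 := by
        obtain ⟨w, hw⟩ : ∃ w, t = w + 1 := ⟨t - 1, by omega⟩
        rw [hw]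
        nlinarith [Nat.zero_le (w * w)]
      nlinarith
  calc (t + 1) * (t + 1) * (t + 1) ≤ 2 * (m + 1) * (m + 1) :=
        Nat.mul_le_mul h3 (by omega)
    _ ≤ 2 * (n + 1) * (n + 1) :=
        Nat.mul_le_mul (Nat.mul_le_mul_left 2 (by omega)) (by omega)
    _ = _ := by ring

/-- A real comparison: dividing by a large square root. -/
theorem real_aux {C u X g : ℝ} (hX : 0 < X ∨ 0 < |C|) (hX0 : 0 ≤ X) (hub : 100 * |C| + 100 < u)
    (h : X * u ≤ |C| * g) : 100 * X ≤ g := by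
  have hC0 := abs_nonneg C
  have hC1 : 0 < |C| := by
    rcases hC0.lt_or_eq with hlt | heq
    · exact hlt
    · exfalso
      rcases hX with hX | hX
      · rw [← heq, zero_mul] at h
        have : 0 < X * u := mul_pos hX (by linarith)
        linarith
      · rw [← heq] at hX
        exact lt_irrefl _ hX
  have h9 : X * (100 * |C| + 100) ≤ X * u := mul_le_mul_of_nonneg_left hub.le hX0
  have h10 : |C| * (100 * X) ≤ |C| * g := by
    have e : X * (100 * |C| + 100) = |C| * (100 * X) + 100 * X := by ring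
    rw [e] at h9
    linarith
  exact le_of_mul_le_mul_left h10 hC1

/-- PAR. -/
theorem par : PAR_stmt := by
  intro C c
  obtain ⟨K, hK⟩ := exists_nat_gt ((100 * |C| + 100) ^ 2)
  filter_upwards [ev_ll_ge K, le_ZL C, eventually_ge_atTop (c + 1)] with n hn hZ hnc
    s a x h z k h1 h2 h3 h4
  have hC : C ≤ |C| := le_abs_self C
  have hC0 := abs_nonneg C
  have hl : ((ll n + h : ℕ) : ℝ) = (h : ℝ) + ((Nat.log 2 n : ℝ) + 1) := by
    unfold ll
    push_cast
    ring
  have hN : ((n : ℝ) + 1) ≤ (gH n h : ℝ) * gH n h * ((ll n + h : ℕ) : ℝ) := by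
    exact_mod_cast lt_gH_sq n h
  have haZ : a ≤ ZL n := by
    refine hZ a ?_
    rw [le_div_iff₀ (by positivity)]
    refine le_trans (mul_le_mul_of_nonneg_left ?_ (Nat.cast_nonneg a)) h3
    have h5 : (0 : ℝ) ≤ h := Nat.cast_nonneg h
    exact pow_le_pow_left₀ (by positivity) (by linarith) 2
  rw [← hl] at h1 h2 h3 h4
  have hlk : (100 * |C| + 100) ^ 2 < ((ll n + h : ℕ) : ℝ) :=
    lt_of_lt_of_le hK (by exact_mod_cast hn.trans (Nat.le_add_right _ _))
  set LN : ℕ := ll n + h with hLN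
  set L : ℝ := ((LN : ℕ) : ℝ) with hL
  set g : ℝ := (gH n h : ℝ) with hg
  have hg1 : (1 : ℝ) ≤ g := by
    rw [hg]
    exact_mod_cast gH_pos n h
  set u : ℝ := Real.sqrt L with hu
  have hl0 : (0 : ℝ) ≤ L := Nat.cast_nonneg _
  have hu0 : 0 ≤ u := Real.sqrt_nonneg _
  have huu : u * u = L := Real.mul_self_sqrt hl0
  have hub : 100 * |C| + 100 < u := by
    rw [hu]
    exact Real.lt_sqrt_of_sq_lt hlk
  set v : ℝ := Real.sqrt ((n : ℝ) + 1) with hv
  have hn0 : (0 : ℝ) ≤ (n : ℝ) + 1 := by positivity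
  have hv0 : 0 ≤ v := Real.sqrt_nonneg _
  have hvv : v * v = (n : ℝ) + 1 := Real.mul_self_sqrt hn0
  have e1 : ((n : ℝ) + 1) ^ ((1 : ℝ) / 2) = v := by rw [hv, Real.sqrt_eq_rpow]
  have e3 : ((n : ℝ) + 1) ^ ((3 : ℝ) / 2) = v * v * v := by
    have : (3 : ℝ) / 2 = 1 + 1 / 2 := by norm_num
    rw [this, Real.rpow_add (by positivity), Real.rpow_one, e1, hvv]
  rw [e3] at h1
  rw [e1] at h2
  have hvg : v ≤ g * u := by
    have h3 : v * v ≤ (g * u) * (g * u) := by
      rw [hvv]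
      calc (n : ℝ) + 1 ≤ g * g * L := hN
        _ = (g * u) * (g * u) := by rw [← huu]; ring
    exact abs_le_of_sq_le_sq' (by nlinarith) (by positivity) |>.2
  have hu1 : 0 < u := by linarith
  have hl1 : (1 : ℝ) ≤ L := by rw [← huu]; nlinarith
  have hs0 : (0 : ℝ) ≤ s := Nat.cast_nonneg s
  have hh0 : (0 : ℝ) ≤ h := Nat.cast_nonneg h
  have hx0 : (0 : ℝ) ≤ x := Nat.cast_nonneg x
  have ha0 : (0 : ℝ) ≤ a := Nat.cast_nonneg a
  have hz0 : (0 : ℝ) ≤ z := Nat.cast_nonneg z
  have hk0 : (0 : ℝ) ≤ k := Nat.cast_nonneg k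
  have hsL : (1 : ℝ) ≤ (s : ℝ) + L := by linarith
  have hX1 : (0 : ℝ) < ((s : ℝ) + L) * ((h : ℝ) + 1) := by positivity
  -- the second bound
  have b2 : 100 * (((s : ℝ) + L) * ((h : ℝ) + 1)) ≤ g := by
    refine real_aux (C := C) (u := u) (Or.inl hX1) hX1.le hub ?_
    have h6 : C * v ≤ |C| * (g * u) := mul_le_mul hC hvg hv0 hC0
    have h7 : (((s : ℝ) + L) * ((h : ℝ) + 1) * u) * u ≤ (|C| * g) * u := by
      calc _ = ((s : ℝ) + L) * ((h : ℝ) + 1) * (u * u) := by ring
        _ = ((s : ℝ) + L) * ((h : ℝ) + 1) * L := by rw [huu]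
        _ ≤ |C| * (g * u) := h2.trans h6
        _ = _ := by ring
    exact le_of_mul_le_mul_right h7 hu1
  have hC1 : 0 < |C| := by
    rcases hC0.lt_or_eq with hlt | heq
    · exact hlt
    · exfalso
      have h5 : C = 0 := abs_eq_zero.mp heq.symm
      rw [h5, zero_mul] at h2
      have h6 : 0 < ((s : ℝ) + L) * ((h : ℝ) + 1) * L := mul_pos hX1 (by linarith)
      linarith
  -- the first bound
  have b1 : 100 * ((x : ℝ) * ((s : ℝ) + L)) ≤ g * g * g := by
    refine real_aux (C := C) (u := u) (Or.inr hC1) (by positivity) hub ?_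
    have h15 : C * (v * v * v) ≤ |C| * ((g * u) * (g * u) * (g * u)) :=
      mul_le_mul hC (mul_le_mul (mul_le_mul hvg hvg hv0 (by positivity)) hvg hv0 (by positivity))
        (by positivity) hC0
    have h16 : ((x : ℝ) * ((s : ℝ) + L) * u) * (u * u * u) ≤
        (|C| * (g * g * g)) * (u * u * u) := by
      calc _ = (x : ℝ) * ((s : ℝ) + L) * (u * u) ^ 2 := by ring
        _ = (x : ℝ) * ((s : ℝ) + L) * L ^ 2 := by rw [huu]
        _ ≤ |C| * ((g * u) * (g * u) * (g * u)) := h1.trans h15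
        _ = _ := by ring
    exact le_of_mul_le_mul_right h16 (by positivity)
  have hLu : 100 * |C| + 100 < L := by
    rw [← huu]
    nlinarith
  -- the third bound
  have b3 : 100 * (a : ℝ) ≤ g * g := by
    refine real_aux (C := C) (u := L) (Or.inr hC1) ha0 hLu ?_
    have h22 : C * ((n : ℝ) + 1) ≤ |C| * (g * g * L) := mul_le_mul hC hN hn0 hC0
    have h23 : ((a : ℝ) * L) * L ≤ (|C| * (g * g)) * L := by
      calc _ = (a : ℝ) * L ^ 2 := by ring
        _ ≤ |C| * (g * g * L) := h3.trans h22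
        _ = _ := by ring
    exact le_of_mul_le_mul_right h23 (by linarith)
  -- the fourth bound
  have b4 : 100 * (((k : ℝ) + 1) * ((z : ℝ) + s + L)) ≤ (n : ℝ) + 1 := by
    refine real_aux (C := C) (u := L) (Or.inr hC1) (by positivity) hLu ?_
    exact h4.trans (mul_le_mul_of_nonneg_right hC hn0)
  -- natural numbers
  have n2 : 100 * ((s + LN) * (h + 1)) ≤ gH n h := by
    rw [hg, hL] at b2
    exact_mod_cast b2
  have n1 : 100 * (x * (s + LN)) ≤ gH n h * gH n h * gH n h := by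
    rw [hg, hL] at b1
    exact_mod_cast b1
  have n3 : 100 * a ≤ gH n h * gH n h := by
    rw [hg] at b3
    exact_mod_cast b3
  have n4 : 100 * ((k + 1) * (z + s + LN)) ≤ n + 1 := by
    rw [hL] at b4
    exact_mod_cast b4
  have hl2 : 1 ≤ ll n := ll_pos n
  have hln : n < 2 ^ ll n := lt_two_pow_ll n
  have hcube := gH_cube n h
  set G := gH n h with hG
  set l := ll n with hll
  have e5 : (s + LN) * (h + 1) = (s + LN) * h + (s + LN) := by ring
  have hG100 : 100 ≤ G := by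
    have : 1 ≤ (s + LN) * (h + 1) := Nat.mul_pos (by omega) (by omega)
    omega
  have hV : s + h + 5 * l + 1 ≤ 6 * (s + LN) := by omega
  have hVG : s + h + 5 * l + 1 ≤ G := by omega
  have hV2 : (s + h + 5 * l + 2) * h ≤ G := by
    have h5 : (s + h + 5 * l + 2) * h ≤ (7 * (s + LN)) * h := Nat.mul_le_mul_right _ (by omega)
    have h6 : (7 * (s + LN)) * h = 7 * ((s + LN) * h) := by ring
    omega
  have hGG : 100 * G ≤ G * G := Nat.mul_le_mul_right _ hG100
  have ha1 : a + 1 ≤ G * G := by omega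
  have hk1 : (k + 1) * (s + 3 + 3 * z) ≤ n + 1 := by
    have h5 : (k + 1) * (s + 3 + 3 * z) ≤ (k + 1) * (3 * (z + s + LN)) :=
      Nat.mul_le_mul_left _ (by omega)
    have h6 : (k + 1) * (3 * (z + s + LN)) = 3 * ((k + 1) * (z + s + LN)) := by ring
    omega
  have hkz : z + s + LN ≤ (k + 1) * (z + s + LN) := Nat.le_mul_of_pos_left _ (by omega)
  have hkk : k + 1 ≤ (k + 1) * (z + s + LN) := Nat.le_mul_of_pos_right _ (by omega)
  have hZn := ZL_le n
  have hgd : gd n s a h k z = 1 := by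
    unfold gd le01
    rw [if_pos hVG, if_pos hV2, if_pos ha1, if_pos haZ, if_pos hk1]
  -- powers
  set A := 2 ^ (2 * l) with hA
  have hAl : A = 2 ^ l * 2 ^ l := by rw [hA, two_mul, pow_add]
  have hnA : (n + 1) * (n + 1) ≤ A := by
    rw [hAl]
    exact Nat.mul_le_mul hln hln
  have hA4 : 4 ≤ A := by
    rw [hA]
    calc 4 = 2 ^ 2 := by norm_num
      _ ≤ 2 ^ (2 * l) := Nat.pow_le_pow_right (by norm_num) (by omega)
  have hxA : x + 2 ≤ A := by
    have h5 : x ≤ x * (s + LN) := Nat.le_mul_of_pos_right _ (by omega)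
    omega
  have hcA : c * n + 1 ≤ A := by
    have h5 : c * n ≤ n * n := Nat.mul_le_mul_right _ (by omega)
    have h6 : (n + 1) * (n + 1) = n * n + 2 * n + 1 := by ring
    omega
  have hp2 : ∀ m : ℕ, 1 ≤ 2 ^ m := fun m => Nat.one_le_two_pow
  refine ⟨hgd, by omega, by omega, by omega, by omega, by omega, ?_, ?_, ?_⟩
  · have h5 : 2 ^ h * (x + 1) + 1 ≤ 2 ^ h * A := by
      calc 2 ^ h * (x + 1) + 1 ≤ 2 ^ h * (x + 1) + 2 ^ h := Nat.add_le_add_left (hp2 h) _
        _ = 2 ^ h * (x + 2) := by ring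
        _ ≤ 2 ^ h * A := Nat.mul_le_mul_left _ hxA
    have h6 : 2 ^ (s + 1) * ((c * n + 1) * (2 ^ h * (x + 1) + 1)) ≤
        2 ^ (s + 1) * (A * (2 ^ h * A)) :=
      Nat.mul_le_mul_left _ (Nat.mul_le_mul hcA h5)
    have h7 : 2 ^ (s + 1) * (A * (2 ^ h * A)) = 2 ^ (s + h + 4 * l + 1) := by
      rw [hA, ← pow_add, ← pow_add, ← pow_add]
      congr 1
      ring
    have h8 : 2 * 2 ^ (s + h + 4 * l + 1) ≤ 2 ^ (s + h + 5 * l + 1) := by
      rw [← pow_succ']
      exact Nat.pow_le_pow_right (by norm_num) (by omega)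
    have h9 : 2 ≤ 2 ^ (s + h + 4 * l + 1) := by
      calc 2 = 2 ^ 1 := by norm_num
        _ ≤ _ := Nat.pow_le_pow_right (by norm_num) (by omega)
    omega
  · calc 2 ^ h * (x + 1) ≤ 2 ^ h * A := Nat.mul_le_mul_left _ (by omega)
      _ = 2 ^ (h + 2 * l) := by rw [hA, ← pow_add]
      _ < 2 ^ (s + h + 5 * l) := Nat.pow_lt_pow_right (by norm_num) (by omega)
  · set b := G / (s + h + 5 * l + 1) with hb
    have hb1 : 1 ≤ b := by
      rw [hb, Nat.le_div_iff_mul_le (by omega)]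
      omega
    have h28 : G ≤ 12 * (s + LN) * b := by
      have h29 : G < (b + 1) * (s + h + 5 * l + 1) := by
        have := Nat.lt_div_mul_add (a := G) (b := s + h + 5 * l + 1) (by omega)
        rw [add_mul, one_mul]
        exact this
      have h30 : (b + 1) * (s + h + 5 * l + 1) ≤ (2 * b) * (6 * (s + LN)) :=
        Nat.mul_le_mul (by omega) hV
      have h31 : (2 * b) * (6 * (s + LN)) = 12 * (s + LN) * b := by ring
      omega
    have h32 : 8 * x * (12 * (s + LN)) ≤ G * (G * b) * (12 * (s + LN)) := by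
      calc 8 * x * (12 * (s + LN)) = 96 * (x * (s + LN)) := by ring
        _ ≤ 100 * (x * (s + LN)) := Nat.mul_le_mul_right _ (by norm_num)
        _ ≤ G * G * G := n1
        _ ≤ G * G * (12 * (s + LN) * b) := Nat.mul_le_mul_left _ h28
        _ = _ := by ring
    have h33 : 8 * x ≤ G * (G * b) := Nat.le_of_mul_le_mul_right h32 (by omega)
    have h34 : G ≤ G * (G * b) := Nat.le_mul_of_pos_right _ (Nat.mul_pos (by omega) hb1)
    omega

end Pool.Agent.Helper5.Sus
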